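import Mathlib

/-!
# A polynomial is somewhere on the unit circle at least its Mahler measure

`exists_circle` : for complex numbers `a s` and `ρ > 0` there is `ξ` of modulus one with
`∏ max ρ ‖a s‖ ≤ ∏ ‖a s + ρ ξ‖`.
-/

namespace H7.Dob

open Polynomial Finset

open Filter MeasureTheory Set in
theorem mahler_le_of_bound (p : ℂ[X]) {B : ℝ} (hB : 0 < B)
    (h : ∀ z : ℂ, ‖z‖ = 1 → ‖p.eval z‖ ≤ B) : p.mahlerMeasure ≤ B := by
  by_cases hp : p = 0
  · simp [hp, hB.le]
  rw [show B = Real.exp (Real.circleAverage (fun _ ↦ Real.log B) 0 1)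
    by simp [Real.circleAverage_def, mul_assoc, Real.exp_log hB], mahlerMeasure_def_of_ne_zero hp,
    Real.circleAverage_def, smul_eq_mul]
  gcongr
  apply intervalIntegral.integral_mono_ae_restrict (by positivity)
    p.intervalIntegrable_mahlerMeasure (by simp)
  rw [EventuallyLE, eventually_iff_exists_mem]
  use {x : ℝ | eval (circleMap 0 1 x) p ≠ 0}
  constructor
  · rw [mem_ae_iff, compl_def, Measure.restrict_apply' (by simp)]
    apply (Finite.of_sdiff _ <| finite_singleton (2 * Real.pi)).measure_zero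
    simp only [ne_eq, mem_ofPred_eq, Decidable.not_not, inter_sdiff_assoc, Icc_sdiff_right]
    rw [ofPred_inter_eq_sep]
    apply Finite.of_finite_image (f := circleMap 0 1) ((Multiset.finite_toSet p.roots).subset _)
      <| fun _ h _ k l ↦ injOn_circleMap_of_abs_sub_le' one_ne_zero (by linarith) h.1 k.1 l
    simp [hp]
  · intro x hx
    have h1 : ‖p.eval (circleMap 0 1 x)‖ ≤ B := h _ (by simp)
    exact Real.log_le_log (norm_pos_iff.mpr hx) h1

theorem exists_ge_mahler (p : ℂ[X]) : ∃ z : ℂ, ‖z‖ = 1 ∧ p.mahlerMeasure ≤ ‖p.eval z‖ := by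
  by_contra hcon
  push Not at hcon
  have hcomp : IsCompact (Metric.sphere (0 : ℂ) 1) := isCompact_sphere 0 1
  have hne : (Metric.sphere (0 : ℂ) 1).Nonempty := ⟨1, by simp⟩
  obtain ⟨w, hw, hmax⟩ := hcomp.exists_isMaxOn hne
    (f := fun z => ‖p.eval z‖) (by fun_prop)
  have hw1 : ‖w‖ = 1 := by simpa using hw
  have hlt := hcon w hw1
  have h0 : 0 ≤ ‖p.eval w‖ := norm_nonneg _
  have hle := mahler_le_of_bound p (B := (‖p.eval w‖ + p.mahlerMeasure) / 2) (by linarith)
    (fun z hz => by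
      have : ‖p.eval z‖ ≤ ‖p.eval w‖ := hmax (by simpa using hz)
      linarith)
  linarith

theorem mahler_prod {S : Type*} (F : Finset S) (a : S → ℂ) {ρ : ℝ} (hρ : 0 < ρ) :
    (∏ s ∈ F, (C (ρ : ℂ) * X + C (a s))).mahlerMeasure = ∏ s ∈ F, max ρ ‖a s‖ := by
  classical
  induction F using Finset.induction_on with
  | empty => simp
  | insert s F hs ih =>
    rw [Finset.prod_insert hs, Finset.prod_insert hs, mahlerMeasure_mul, ih,
      mahlerMeasure_C_mul_X_add_C (by exact_mod_cast hρ.ne')]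
    simp [abs_of_pos hρ]

theorem exists_circle {S : Type*} (F : Finset S) (a : S → ℂ) {ρ : ℝ} (hρ : 0 < ρ) :
    ∃ ξ : ℂ, ‖ξ‖ = 1 ∧ ∏ s ∈ F, max ρ ‖a s‖ ≤ ∏ s ∈ F, ‖a s + ρ * ξ‖ := by
  obtain ⟨ξ, h1, h2⟩ := exists_ge_mahler (∏ s ∈ F, (C (ρ : ℂ) * X + C (a s)))
  refine ⟨ξ, h1, ?_⟩
  rw [mahler_prod F a hρ, eval_prod, norm_prod] at h2
  refine h2.trans (le_of_eq (Finset.prod_congr rfl fun s _ => ?_))
  simp [add_comm]

end H7.Dob
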